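import Pool.Agent.U999.OP.StarRow
import Pool.Agent.H867R3.Kn.A1

set_option autoImplicit false

/-! # Random stackings of open polygons -/

namespace Pool.Agent.U999.OP

open Finset Function Pool.Agent.H832R2 Pool.Agent.H832R2.JR Pool.Agent.W642.RS LaurentPolynomial
  Pool.Agent.H867R3.Kn Pool.Agent.U999.RSt

/-- The edges `i` and `j` of the open polygon with the vertices `r 0, r 1, …, r n`, numbers of points
on a circle in their cyclic order (the edge `i` joins `r i` and `r (i+1)`), cross: they have no common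
vertex, and exactly one of the vertices `r j`, `r (j+1)` lies between `r i` and `r (i+1)`. -/
def OpenCross {n : ℕ} (r : Equiv.Perm (Fin (n + 1))) (i j : Fin n) : Prop :=
  i ≠ j ∧ i.succ ≠ j.castSucc ∧ j.succ ≠ i.castSucc ∧
    ¬ (JR.Btw (r i.castSucc) (r i.succ) (r j.castSucc) ↔
      JR.Btw (r i.castSucc) (r i.succ) (r j.succ))

/-- the stack `D` describes the edges of the open polygon with the vertices `r 0, …, r n` on a
circle -/
def IsOpenPolygon {N n : ℕ} (r : Equiv.Perm (Fin (n + 1))) (D : Stack N n) : Prop :=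
  ∀ i j, OpenCross r i j ↔ ∃ c, s(D.arc (c, false), D.arc (c, true)) = s(i, j)

theorem rot_castSucc {n : ℕ} (i : Fin n) : finRotate (n + 1) i.castSucc = i.succ := by
  rw [finRotate_apply, Fin.coeSucc_eq_succ]

theorem openCross_iff {n : ℕ} (r : Equiv.Perm (Fin (n + 1))) (i j : Fin n) :
    OpenCross r i j ↔ EdgesCross r i.castSucc j.castSucc := by
  unfold OpenCross EdgesCross
  rw [rot_castSucc, rot_castSucc, ne_eq, ne_eq i.castSucc, Fin.castSucc_inj]

theorem openCross_symm {n : ℕ} (r : Equiv.Perm (Fin (n + 1))) (i j : Fin n)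
    (h : OpenCross r i j) : OpenCross r j i := by
  rw [openCross_iff] at h ⊢
  exact Pool.Agent.W902.RS.edgesCross_symm r _ _ h

open Classical in
/-- every symmetric relation without fixed points is the crossing relation of a stack -/
theorem exist_rel {n : ℕ} (X : Fin n → Fin n → Prop) (hs : ∀ i j, X i j → X j i)
    (hn : ∀ i, ¬ X i i) : ∃ (N : ℕ) (D : Stack N n), ∀ i j, X i j ↔
      ∃ c, s(D.arc (c, false), D.arc (c, true)) = s(i, j) := by
  let P : Finset (Fin n × Fin n) := univ.filter fun q => q.1 < q.2 ∧ X q.1 q.2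
  have hP : ∀ q : P, q.1.1 < q.1.2 ∧ X q.1.1 q.1.2 := fun q => (Finset.mem_filter.1 q.2).2
  let e : Fin P.card ≃ P := P.equivFin.symm
  let arc : Fin P.card × Bool → Fin n := fun x => if x.2 then (e x.1).1.2 else (e x.1).1.1
  obtain ⟨G, hG⟩ := Pool.Agent.W902.RS.exists_numbering arc
  have harcf : ∀ c, arc (c, false) = (e c).1.1 := fun c => rfl
  have harct : ∀ c, arc (c, true) = (e c).1.2 := fun c => rfl
  refine ⟨P.card, ⟨G, arc, hG, ?_, ?_, fun _ => true⟩, ?_⟩
  · intro c
    rw [harcf, harct]
    exact (hP (e c)).1.ne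
  · intro c d h
    rw [harcf, harct, harcf, harct, Sym2.eq_iff] at h
    rcases h with ⟨h1, h2⟩ | ⟨h1, h2⟩
    · exact e.injective (Subtype.ext (Prod.ext h1 h2))
    · exfalso
      have h3 := (hP (e c)).1
      have h4 := (hP (e d)).1
      rw [h1, h2] at h3
      exact lt_asymm h3 h4
  · intro i j
    change X i j ↔ ∃ c, s(arc (c, false), arc (c, true)) = s(i, j)
    constructor
    · intro h
      rcases lt_trichotomy i j with hij | hij | hij
      · have hm : (i, j) ∈ P := Finset.mem_filter.2 ⟨Finset.mem_univ _, hij, h⟩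
        refine ⟨e.symm ⟨(i, j), hm⟩, ?_⟩
        rw [harcf, harct, Equiv.apply_symm_apply]
      · subst hij
        exact absurd h (hn i)
      · have hm : (j, i) ∈ P := Finset.mem_filter.2 ⟨Finset.mem_univ _, hij, hs i j h⟩
        refine ⟨e.symm ⟨(j, i), hm⟩, ?_⟩
        rw [harcf, harct, Equiv.apply_symm_apply]
        exact Sym2.eq_swap
    · rintro ⟨c, hc⟩
      rw [harcf, harct, Sym2.eq_iff] at hc
      rcases hc with ⟨h1, h2⟩ | ⟨h1, h2⟩
      · rw [← h1, ← h2]
        exact (hP (e c)).2
      · rw [← h1, ← h2]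
        exact hs _ _ (hP (e c)).2

/-- every open polygon with its vertices on a circle is described by a stack -/
theorem exist (n : ℕ) (r : Equiv.Perm (Fin (n + 1))) :
    ∃ (N : ℕ) (D : Stack N n), IsOpenPolygon r D :=
  exist_rel (OpenCross r) (openCross_symm r) (fun _ h => h.1 rfl)

open Classical in
theorem XX_open {N n : ℕ} (r : Equiv.Perm (Fin (n + 1))) (D : Stack N n) (hD : IsOpenPolygon r D) :
    XX D = univ.filter fun ij : Fin n × Fin n => ij.1 < ij.2 ∧ OpenCross r ij.1 ij.2 := by
  ext ⟨i, j⟩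
  unfold XX
  rw [mem_image, mem_filter]
  constructor
  · rintro ⟨c, _, hc⟩
    refine ⟨mem_univ _, ?_, ?_⟩
    · have := ed_lt D c
      rw [hc] at this
      exact this
    · rw [hD]
      exact ⟨c, by rw [ed_sym, hc]⟩
  · rintro ⟨_, h1, h2⟩
    rw [hD] at h2
    obtain ⟨c, hc⟩ := h2
    refine ⟨c, mem_univ _, ?_⟩
    rw [ed_sym, Sym2.eq_iff] at hc
    have h3 := ed_lt D c
    rcases hc with ⟨h4, h5⟩ | ⟨h4, h5⟩
    · exact Prod.ext h4 h5
    · rw [h4, h5] at h3
      exact absurd h3 (lt_asymm h1)

open Classical in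
/-- the crossings of the closed polygon are those of the open one and those of the last edge -/
theorem closed_eq {n : ℕ} (r : Equiv.Perm (Fin (n + 1))) :
    (univ.filter fun ij : Fin (n + 1) × Fin (n + 1) => ij.1 < ij.2 ∧ EdgesCross r ij.1 ij.2).card =
    (univ.filter fun ij : Fin n × Fin n => ij.1 < ij.2 ∧ OpenCross r ij.1 ij.2).card +
    (univ.filter fun i : Fin (n + 1) => EdgesCross r (Fin.last n) i).card := by
  set A := univ.filter fun ij : Fin (n + 1) × Fin (n + 1) => ij.1 < ij.2 ∧ EdgesCross r ij.1 ij.2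
    with hA
  have h1 : A = A.filter (fun ij => ij.2 ≠ Fin.last n) ∪ A.filter (fun ij => ij.2 = Fin.last n) := by
    ext x
    simp only [mem_union, mem_filter]
    tauto
  rw [h1, card_union_of_disjoint]
  · congr 1
    · symm
      refine card_bij (fun ij _ => (ij.1.castSucc, ij.2.castSucc)) ?_ ?_ ?_
      · rintro ⟨i, j⟩ hij
        rw [mem_filter] at hij
        rw [mem_filter, hA, mem_filter]
        refine ⟨⟨mem_univ _, ?_, (openCross_iff r i j).1 hij.2.2⟩, ?_⟩
        · exact Fin.castSucc_lt_castSucc_iff.2 hij.2.1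
        · exact (Fin.castSucc_lt_last j).ne
      · rintro ⟨i, j⟩ _ ⟨i', j'⟩ _ h
        simp only [Prod.mk.injEq, Fin.castSucc_inj] at h
        exact Prod.ext h.1 h.2
      · rintro ⟨i, j⟩ hij
        rw [mem_filter, hA, mem_filter] at hij
        obtain ⟨⟨_, h2, h3⟩, h4⟩ := hij
        simp only at h2 h3 h4
        have hj : j < Fin.last n := lt_of_le_of_ne (Fin.le_last j) h4
        have hi : i < Fin.last n := h2.trans hj
        refine ⟨(i.castPred hi.ne, j.castPred hj.ne), ?_, ?_⟩
        · rw [mem_filter]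
          refine ⟨mem_univ _, ?_, ?_⟩
          · simpa using h2
          · rw [openCross_iff]
            simpa using h3
        · simp
    · refine card_bij (fun ij _ => ij.1) ?_ ?_ ?_
      · rintro ⟨i, j⟩ hij
        rw [mem_filter, hA, mem_filter] at hij
        obtain ⟨⟨_, _, h3⟩, h4⟩ := hij
        rw [mem_filter]
        simp only at h3 h4
        rw [h4] at h3
        exact ⟨mem_univ _, Pool.Agent.W902.RS.edgesCross_symm r _ _ h3⟩
      · rintro ⟨i, j⟩ hij ⟨i', j'⟩ hij' h
        rw [mem_filter] at hij hij'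
        simp only at h hij hij'
        exact Prod.ext h (hij.2.trans hij'.2.symm)
      · intro i hi
        rw [mem_filter] at hi
        refine ⟨(i, Fin.last n), ?_, rfl⟩
        rw [mem_filter, hA, mem_filter]
        refine ⟨⟨mem_univ _, ?_, Pool.Agent.W902.RS.edgesCross_symm r _ _ hi.2⟩, rfl⟩
        exact lt_of_le_of_ne (Fin.le_last i) (fun h => hi.2.1 h.symm)
  · rw [Finset.disjoint_left]
    intro x hx hy
    exact (mem_filter.1 hx).2 (mem_filter.1 hy).2

open Classical in
theorem closed_le {n : ℕ} (r : Equiv.Perm (Fin (n + 1))) :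
    (univ.filter fun ij : Fin (n + 1) × Fin (n + 1) => ij.1 < ij.2 ∧ EdgesCross r ij.1 ij.2).card ≤
    (univ.filter fun ij : Fin n × Fin n => ij.1 < ij.2 ∧ OpenCross r ij.1 ij.2).card + n := by
  rw [closed_eq]
  have h : (univ.filter fun i : Fin (n + 1) => EdgesCross r (Fin.last n) i).card ≤ n := by
    have h1 : (univ.filter fun i : Fin (n + 1) => EdgesCross r (Fin.last n) i) ⊆
        univ.erase (Fin.last n) := by
      intro i hi
      rw [mem_filter] at hi
      rw [mem_erase]
      exact ⟨fun h => hi.2.1 h.symm, mem_univ _⟩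
    refine (card_le_card h1).trans ?_
    rw [card_erase_of_mem (mem_univ _), card_univ, Fintype.card_fin]
    omega
  omega

theorem mul_sub_two {a b : ℕ} (hb : 2 ≤ b) : b * a = (b - 2) * a + 2 * a := by
  obtain ⟨c, rfl⟩ := Nat.exists_eq_add_of_le hb
  have : 2 + c - 2 = c := by omega
  rw [this]
  ring

open Classical in
/-- the star polygon `{n/k}` without one edge has exactly `(n - 2) (k - 1)` crossings -/
theorem open_star_crossings {n k N : ℕ} (hk : 2 ≤ k) (hkn : 2 * k < n + 1)
    (h : Nat.Coprime k (n + 1)) (D : Stack N n) (hD : IsOpenPolygon (star (n + 1) k h) D) :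
    N = (n - 1) * (k - 1) := by
  have h1 := XX_card D
  rw [XX_open _ D hD] at h1
  have h2 := card_unordered (star (n + 1) k h)
  rw [card_ordered hk hkn h] at h2
  have h3 := closed_eq (star (n + 1) k h)
  rw [h1, card_cross_row hk hkn h] at h3
  have h4 : 2 * (N + 2 * (k - 1)) = 2 * ((n + 1) * (k - 1)) := by
    rw [← h3, h2]; ring
  have h5 : (n + 1) * (k - 1) = (n + 1 - 2) * (k - 1) + 2 * (k - 1) := mul_sub_two (by omega)
  have h6 : n + 1 - 2 = n - 1 := by omega
  rw [h6] at h5
  omega

/-- the normalised bracket of a knotoid diagram is the one of the (virtual) closure -/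
theorem kPoly_eq {N : ℕ} (G : GaussWord N) (w : Fin N → Bool) : kPoly G w = fPoly G w := by
  unfold kPoly fPoly kBracket bracket
  congr 1
  refine sum_congr rfl fun s _ => ?_
  have h1 : comps G s = loops G s := by
    rw [(t_A1 N G s).2, loops_eq]
    rfl
  rw [h1]

end Pool.Agent.U999.OP
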