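import Pool.Agent.U999.RSt.Star

set_option autoImplicit false

/-! # The crossings of one edge of a star polygon -/

namespace Pool.Agent.U999.RSt

open Finset Function Pool.Agent.H832R2 Pool.Agent.H832R2.JR Pool.Agent.W642.RS LaurentPolynomial

theorem star_cross_iff {n k : ℕ} (hk : 2 ≤ k) (hkn : 2 * k < n) (h : Nat.Coprime k n) (i j : Fin n) :
    EdgesCross (star n k h) i j ↔
      ((0 < dif n (star n k h i) (star n k h j) ∧ dif n (star n k h i) (star n k h j) < k) ∨
        n - k < dif n (star n k h i) (star n k h j)) := by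
  rw [← cross_iff hk hkn (star n k h i).2 (star n k h j).2]
  unfold EdgesCross
  rw [← star_rotate h i, ← star_rotate h j]
  have e1 : i ≠ j ↔ ((star n k h i : Fin n) : ℕ) ≠ (star n k h j : Fin n) := by
    rw [ne_eq, ne_eq, not_iff_not, ← Fin.ext_iff, (star n k h).injective.eq_iff]
  have e2 : finRotate n i ≠ j ↔
      ((star n k h (finRotate n i) : Fin n) : ℕ) ≠ (star n k h j : Fin n) := by
    rw [ne_eq, ne_eq, not_iff_not, ← Fin.ext_iff, (star n k h).injective.eq_iff]
  have e3 : finRotate n j ≠ i ↔
      ((star n k h (finRotate n j) : Fin n) : ℕ) ≠ (star n k h i : Fin n) := by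
    rw [ne_eq, ne_eq, not_iff_not, ← Fin.ext_iff, (star n k h).injective.eq_iff]
  rw [e1, e2, e3]

open Classical in
/-- every edge of the star polygon `{n/k}` has exactly `2 (k - 1)` crossings -/
theorem card_cross_row {n k : ℕ} (hk : 2 ≤ k) (hkn : 2 * k < n) (h : Nat.Coprime k n) (i : Fin n) :
    (univ.filter fun j : Fin n => EdgesCross (star n k h) i j).card = 2 * (k - 1) := by
  rw [← card_row hk hkn (star n k h i).2]
  refine card_bij (fun j _ => star n k h j) ?_ ?_ ?_
  · intro j hj
    rw [mem_filter] at hj ⊢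
    exact ⟨mem_univ _, (star_cross_iff hk hkn h i j).1 hj.2⟩
  · intro j _ j' _ hjj
    exact (star n k h).injective hjj
  · intro b hb
    rw [mem_filter] at hb
    refine ⟨(star n k h).symm b, ?_, Equiv.apply_symm_apply _ _⟩
    rw [mem_filter, star_cross_iff hk hkn h, Equiv.apply_symm_apply]
    exact ⟨mem_univ _, hb.2⟩

end Pool.Agent.U999.RSt
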